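import Mathlib

/-! Normalised Krawtchouk polynomials `g m ε t` (`ε = 1/N`) and their limits at `ε = 0`, the
Hermite polynomials divided by `m!`. -/

namespace Pool.Agent.Q33.Kraw

open Set Filter Topology

/-- normalised Krawtchouk polynomials -/
noncomputable def g : ℕ → ℝ → ℝ → ℝ
  | 0, _, _ => 1
  | 1, _, t => t
  | (m + 2), ε, t => (t * g (m + 1) ε t - (1 - m * ε) * g m ε t) / (m + 2)

/-- their derivatives with respect to `t` -/
noncomputable def gd : ℕ → ℝ → ℝ → ℝ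
  | 0, _, _ => 0
  | 1, _, _ => 1
  | (m + 2), ε, t => (g (m + 1) ε t + t * gd (m + 1) ε t - (1 - m * ε) * gd m ε t) / (m + 2)

theorem g_rec (m : ℕ) (ε t : ℝ) :
    g (m + 2) ε t = (t * g (m + 1) ε t - (1 - m * ε) * g m ε t) / (m + 2) := by rw [g]

theorem gd_rec (m : ℕ) (ε t : ℝ) : gd (m + 2) ε t =
    (g (m + 1) ε t + t * gd (m + 1) ε t - (1 - m * ε) * gd m ε t) / (m + 2) := by rw [gd]

theorem g_cont (m : ℕ) : Continuous fun p : ℝ × ℝ => g m p.1 p.2 := by
  induction m using Nat.twoStepInduction with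
  | zero => simp only [g]; fun_prop
  | one => simp only [g]; fun_prop
  | more m h1 h2 => simp only [g_rec]; fun_prop

theorem gd_cont (m : ℕ) : Continuous fun p : ℝ × ℝ => gd m p.1 p.2 := by
  induction m using Nat.twoStepInduction with
  | zero => simp only [gd]; fun_prop
  | one => simp only [gd]; fun_prop
  | more m h1 h2 =>
    have h3 := g_cont (m + 1)
    simp only [gd_rec]; fun_prop

theorem g_cont' (m : ℕ) (ε : ℝ) : Continuous (g m ε) :=
  (g_cont m).comp (by fun_prop : Continuous fun t : ℝ => (ε, t))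

theorem gd_cont' (m : ℕ) (ε : ℝ) : Continuous (gd m ε) :=
  (gd_cont m).comp (by fun_prop : Continuous fun t : ℝ => (ε, t))

theorem g_deriv (m : ℕ) (ε t : ℝ) : HasDerivAt (g m ε) (gd m ε t) t := by
  induction m using Nat.twoStepInduction with
  | zero =>
    have h : g 0 ε = fun _ => 1 := by ext; rw [g]
    rw [h, gd]; exact hasDerivAt_const t 1
  | one =>
    have h : g 1 ε = fun t => t := by ext; rw [g]
    rw [h, gd]; exact hasDerivAt_id t
  | more m h1 h2 =>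
    have h : g (m + 2) ε = fun t => (t * g (m + 1) ε t - (1 - m * ε) * g m ε t) / (m + 2) := by
      ext; rw [g_rec]
    rw [h, gd_rec]
    have h3 : HasDerivAt (fun t => (t * g (m + 1) ε t - (1 - m * ε) * g m ε t) / (m + 2))
        ((1 * g (m + 1) ε t + t * gd (m + 1) ε t - (1 - m * ε) * gd m ε t) / (m + 2)) t :=
      (((hasDerivAt_id' t).mul h2).sub (h1.const_mul (1 - m * ε))).div_const ((m : ℝ) + 2)
    rw [one_mul] at h3
    exact h3

theorem g_neg (m : ℕ) (ε t : ℝ) : g m ε (-t) = (-1) ^ m * g m ε t := by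
  induction m using Nat.twoStepInduction with
  | zero => simp [g]
  | one => simp [g]
  | more m h1 h2 => rw [g_rec, g_rec, h1, h2]; ring

theorem gd_zero (m : ℕ) (t : ℝ) : gd (m + 1) 0 t = g m 0 t := by
  induction m using Nat.twoStepInduction with
  | zero => simp [gd, g]
  | one => simp [gd, g]; 
  | more m h1 h2 =>
    rw [gd_rec, h2, h1, g_rec]
    have h3 : g (m + 2) 0 t = (t * g (m + 1) 0 t - (1 - m * 0) * g m 0 t) / (m + 2) := g_rec m 0 t
    have h4 : (m : ℝ) + 2 ≠ 0 := by positivity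
    have h5 : ((m + 1 : ℕ) : ℝ) + 2 ≠ 0 := by positivity
    push_cast at h5 ⊢
    field_simp
    ring

/-- growth far out -/
theorem g_grow {ε t : ℝ} (hε : 0 ≤ ε) {M : ℕ} (hM : (M : ℝ) * ε ≤ 1) (ht : (M : ℝ) + 2 ≤ t) :
    ∀ m, m ≤ M → 0 < g m ε t ∧ g m ε t ≤ g (m + 1) ε t := by
  intro m
  induction m with
  | zero =>
    intro _
    simp only [g]
    have : (0 : ℝ) ≤ M := by positivity
    constructor <;> linarith
  | succ m ih =>
    intro hm
    obtain ⟨h1, h2⟩ := ih (by omega)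
    have h3 : 0 < g (m + 1) ε t := lt_of_lt_of_le h1 h2
    refine ⟨h3, ?_⟩
    rw [show m + 1 + 1 = m + 2 by ring, g_rec, le_div_iff₀ (by positivity)]
    have hm' : ((m : ℝ) + 1) ≤ M := by exact_mod_cast hm
    have h4 : (m : ℝ) * ε ≤ 1 := by
      refine le_trans (mul_le_mul_of_nonneg_right (by linarith) hε) hM
    have h5 : 0 ≤ (m : ℝ) * ε := by positivity
    nlinarith

/-- the limit polynomials `He_m / m!` -/
theorem h_rec (m : ℕ) (t : ℝ) : ((m : ℝ) + 2) * g (m + 2) 0 t = t * g (m + 1) 0 t - g m 0 t := by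
  rw [g_rec, mul_zero, sub_zero, one_mul]
  have : (m : ℝ) + 2 ≠ 0 := by positivity
  field_simp

theorem h_pos_far (m : ℕ) {t : ℝ} (ht : (m : ℝ) + 2 ≤ t) : 0 < g m 0 t :=
  (g_grow (ε := 0) le_rfl (M := m) (by simp) ht m le_rfl).1

/-- largest zeros -/
theorem h_zero (m : ℕ) : ∃ τ τ' : ℝ, 0 ≤ τ ∧ τ < τ' ∧ g (m + 1) 0 τ = 0 ∧ g (m + 2) 0 τ' = 0 ∧
    (∀ t, τ < t → 0 < g (m + 1) 0 t) ∧ (∀ t, τ' < t → 0 < g (m + 2) 0 t) ∧ g (m + 2) 0 τ < 0 := by
  have step : ∀ (m : ℕ) (τ : ℝ), 0 ≤ τ → g m 0 τ < 0 →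
      ∃ τ', τ < τ' ∧ g m 0 τ' = 0 ∧ ∀ t, τ' < t → 0 < g m 0 t := by
    intro m τ h0 hneg
    set T : ℝ := max τ ((m : ℝ) + 2) with hT
    have hc : IsCompact ({t | g m 0 t = 0} ∩ Icc τ T) :=
      isCompact_Icc.inter_left (isClosed_eq (g_cont' m 0) continuous_const)
    have hTpos : 0 < g m 0 T := h_pos_far m (le_max_right _ _)
    have hne : ({t | g m 0 t = 0} ∩ Icc τ T).Nonempty := by
      obtain ⟨c, hc1, hc2⟩ := intermediate_value_Icc (le_max_left τ ((m : ℝ) + 2))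
        (g_cont' m 0).continuousOn (⟨hneg.le, hTpos.le⟩ : (0 : ℝ) ∈ Icc (g m 0 τ) (g m 0 T))
      exact ⟨c, hc2, hc1⟩
    obtain ⟨τ', ⟨h1, h2⟩, h3⟩ := hc.exists_isGreatest hne
    have hlt : τ < τ' := by
      rcases eq_or_lt_of_le h2.1 with h | h
      · exfalso
        have h4 : g m 0 τ' = 0 := h1
        rw [← h] at h4
        linarith
      · exact h
    refine ⟨τ', hlt, h1, fun t ht => ?_⟩
    by_contra hcon
    have hcon' : g m 0 t ≤ 0 := not_lt.1 hcon
    have htT : t ≤ T := by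
      by_contra h
      have h4 : (m : ℝ) + 2 ≤ t := le_trans (le_max_right _ _) (not_le.1 h).le
      exact absurd (h_pos_far m h4) hcon
    obtain ⟨c, hc1, hc2⟩ := intermediate_value_Icc htT
      (g_cont' m 0).continuousOn (⟨hcon', hTpos.le⟩ : (0 : ℝ) ∈ Icc (g m 0 t) (g m 0 T))
    have h5 : c ≤ τ' := h3 ⟨hc2, ⟨(hlt.trans (lt_of_lt_of_le ht hc1.1)).le, hc1.2⟩⟩
    linarith [hc1.1]
  induction m with
  | zero =>
    have h1 : g 2 0 0 < 0 := by
      have := h_rec 0 0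
      simp only [g] at this ⊢
      norm_num
    obtain ⟨τ', h2, h3, h4⟩ := step 2 0 le_rfl h1
    exact ⟨0, τ', le_rfl, h2, by simp [g], h3, fun t ht => by simpa [g] using ht, h4, h1⟩
  | succ m ih =>
    obtain ⟨τ, τ', h0, h1, h2, h3, h4, h5, h6⟩ := ih
    have h7 : g (m + 3) 0 τ' < 0 := by
      have h8 := h_rec (m + 1) τ'
      rw [show m + 1 + 2 = m + 3 by ring, show m + 1 + 1 = m + 2 by ring, h3, mul_zero, zero_sub] at h8
      have h9 := h4 τ' h1
      have h10 : (0 : ℝ) < ((m + 1 : ℕ) : ℝ) + 2 := by positivity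
      by_contra hcon
      have := mul_nonneg h10.le (not_lt.1 hcon)
      linarith
    obtain ⟨τ'', h8, h9, h10⟩ := step (m + 3) τ' (h0.trans h1.le) h7
    exact ⟨τ', τ'', h0.trans h1.le, h8, h3, h9, h5, h10, h7⟩

/-- the Sonin function -/
theorem sonin_mono {m : ℕ} {t s : ℝ} (h0 : 0 ≤ t) (hts : t ≤ s) :
    g (m + 2) 0 t ^ 2 + (1 / ((m : ℝ) + 2)) * g (m + 1) 0 t ^ 2 ≤
      g (m + 2) 0 s ^ 2 + (1 / ((m : ℝ) + 2)) * g (m + 1) 0 s ^ 2 := by
  have hd : ∀ x : ℝ, HasDerivAt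
      (fun t => g (m + 2) 0 t ^ 2 + (1 / ((m : ℝ) + 2)) * g (m + 1) 0 t ^ 2)
      (2 * g (m + 2) 0 x ^ 1 * gd (m + 2) 0 x +
        (1 / ((m : ℝ) + 2)) * (2 * g (m + 1) 0 x ^ 1 * gd (m + 1) 0 x)) x := by
    intro x
    exact ((g_deriv (m + 2) 0 x).pow 2).add (((g_deriv (m + 1) 0 x).pow 2).const_mul _)
  have hmono : MonotoneOn (fun t => g (m + 2) 0 t ^ 2 + (1 / ((m : ℝ) + 2)) * g (m + 1) 0 t ^ 2)
      (Ici 0) := by
    apply monotoneOn_of_deriv_nonneg (convex_Ici 0)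
    · exact fun x _ => (hd x).continuousAt.continuousWithinAt
    · exact fun x _ => (hd x).differentiableAt.differentiableWithinAt
    · intro x hx
      rw [interior_Ici] at hx
      rw [(hd x).deriv, gd_zero (m + 1), gd_zero m]
      have h1 := h_rec m x
      have h2 : (0 : ℝ) < (m : ℝ) + 2 := by positivity
      have h3 : 2 * g (m + 2) 0 x ^ 1 * g (m + 1) 0 x +
          1 / ((m : ℝ) + 2) * (2 * g (m + 1) 0 x ^ 1 * g m 0 x) =
          2 * x / ((m : ℝ) + 2) * g (m + 1) 0 x ^ 2 := by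
        have h4 : g m 0 x = x * g (m + 1) 0 x - ((m : ℝ) + 2) * g (m + 2) 0 x := by linarith
        rw [h4]
        field_simp
        ring
      rw [h3]
      have hx' : (0 : ℝ) < x := hx
      positivity
  exact hmono h0 (h0.trans hts) hts

end Pool.Agent.Q33.Kraw
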