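import Pool.Agent.Q33.Kraw.Lim

/-! The outermost critical point is the unique minimum, and its perturbation. -/

namespace Pool.Agent.Q33.Kraw

open Set Filter Topology

theorem data {m : ℕ} (hm : 1 ≤ m) : ∃ τ : ℝ, 0 < τ ∧ g (m + 1) 0 τ = 0 ∧ 0 < g m 0 τ ∧
    (∀ t, τ < t → 0 < g (m + 1) 0 t) ∧ g (m + 2) 0 τ < 0 := by
  obtain ⟨τ, τ', h0, h1, h2, h3, h4, h5, h6⟩ := h_zero (m - 1)
  rw [show m - 1 + 1 = m by omega] at h2 h4
  rw [show m - 1 + 2 = m + 1 by omega] at h3 h5 h6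
  have h7 := h4 τ' h1
  refine ⟨τ', lt_of_le_of_lt h0 h1, h3, h7, h5, ?_⟩
  have h8 := h_rec m τ'
  rw [h3, mul_zero, zero_sub] at h8
  have h10 : (0 : ℝ) < (m : ℝ) + 2 := by positivity
  by_contra hcon
  have := mul_nonneg h10.le (not_lt.1 hcon)
  linarith

/-- strict growth of the Sonin function up to `τ` -/
theorem sonin_strict {m : ℕ} {τ t : ℝ} (h0 : 0 ≤ t) (ht : t < τ) (h1 : g (m + 1) 0 τ = 0)
    (h2 : 0 < g m 0 τ) (hcrit : g (m + 1) 0 t = 0) : g (m + 2) 0 t ^ 2 < g (m + 2) 0 τ ^ 2 := by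
  have hev : ∀ᶠ x in 𝓝 τ, 0 < g m 0 x := (g_cont' m 0).continuousAt.eventually (lt_mem_nhds h2)
  obtain ⟨η, hη, hη2⟩ := Metric.eventually_nhds_iff.1 hev
  set c : ℝ := max t (τ - η / 2) with hc
  have hcτ : c < τ := max_lt ht (by linarith)
  have hc0 : 0 ≤ c := h0.trans (le_max_left _ _)
  have hpos : ∀ x ∈ Icc c τ, 0 < g m 0 x := by
    intro x hx
    apply hη2
    rw [Real.dist_eq, abs_sub_lt_iff]
    have := le_max_right t (τ - η / 2)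
    constructor <;> linarith [hx.1, hx.2]
  have hneg : ∀ x ∈ Ico c τ, g (m + 1) 0 x < 0 := by
    have hmono : StrictMonoOn (g (m + 1) 0) (Icc c τ) := by
      apply strictMonoOn_of_deriv_pos (convex_Icc c τ) (g_cont' _ _).continuousOn
      intro x hx
      rw [interior_Icc] at hx
      rw [(g_deriv (m + 1) 0 x).deriv, gd_zero]
      exact hpos x ⟨hx.1.le, hx.2.le⟩
    intro x hx
    have := hmono ⟨hx.1, hx.2.le⟩ ⟨hcτ.le, le_rfl⟩ hx.2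
    rwa [h1] at this
  have hd : ∀ x : ℝ, HasDerivAt
      (fun t => g (m + 2) 0 t ^ 2 + (1 / ((m : ℝ) + 2)) * g (m + 1) 0 t ^ 2)
      (2 * g (m + 2) 0 x ^ 1 * gd (m + 2) 0 x +
        (1 / ((m : ℝ) + 2)) * (2 * g (m + 1) 0 x ^ 1 * gd (m + 1) 0 x)) x := by
    intro x
    exact ((g_deriv (m + 2) 0 x).pow 2).add (((g_deriv (m + 1) 0 x).pow 2).const_mul _)
  have hS : StrictMonoOn (fun t => g (m + 2) 0 t ^ 2 + (1 / ((m : ℝ) + 2)) * g (m + 1) 0 t ^ 2)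
      (Icc c τ) := by
    apply strictMonoOn_of_deriv_pos (convex_Icc c τ)
    · exact fun x _ => (hd x).continuousAt.continuousWithinAt
    · intro x hx
      rw [interior_Icc] at hx
      rw [(hd x).deriv, gd_zero (m + 1), gd_zero m]
      have h1 := h_rec m x
      have h3 : 2 * g (m + 2) 0 x ^ 1 * g (m + 1) 0 x +
          1 / ((m : ℝ) + 2) * (2 * g (m + 1) 0 x ^ 1 * g m 0 x) =
          2 * x / ((m : ℝ) + 2) * g (m + 1) 0 x ^ 2 := by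
        have h4 : g m 0 x = x * g (m + 1) 0 x - ((m : ℝ) + 2) * g (m + 2) 0 x := by linarith
        rw [h4]
        field_simp
        ring
      rw [h3]
      have hx' : (0 : ℝ) < x := lt_of_le_of_lt hc0 hx.1
      have := hneg x ⟨hx.1.le, hx.2⟩
      have h5 : 0 < g (m + 1) 0 x ^ 2 := by nlinarith
      positivity
  have h3 := sonin_mono (m := m) h0 (le_max_left t (τ - η / 2))
  have h4 := hS ⟨le_rfl, hcτ.le⟩ ⟨hcτ.le, le_rfl⟩ hcτ
  simp only [] at h4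
  rw [h1] at h4
  rw [hcrit] at h3
  simp only [ne_eq, OfNat.ofNat_ne_zero, not_false_eq_true, zero_pow, mul_zero, add_zero] at h3 h4
  exact lt_of_le_of_lt h3 h4

theorem uniq_min {m : ℕ} (hm : Even m) {τ : ℝ} (hτ : 0 ≤ τ) (h1 : g (m + 1) 0 τ = 0)
    (h2 : 0 < g m 0 τ) (h3 : ∀ t, τ < t → 0 < g (m + 1) 0 t) (h4 : g (m + 2) 0 τ < 0)
    {t : ℝ} (ht : 0 ≤ t) (hne : t ≠ τ) : g (m + 2) 0 τ < g (m + 2) 0 t := by
  have claim : ∀ x : ℝ, 0 ≤ x → g (m + 1) 0 x = 0 → g (m + 2) 0 x ≤ g (m + 2) 0 τ → x = τ := by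
    intro x hx hc hv
    have hxτ : x ≤ τ := by
      by_contra h
      have := h3 x (not_le.1 h)
      linarith
    rcases eq_or_lt_of_le hxτ with h | h
    · exact h
    · have h5 := sonin_strict hx h h1 h2 hc
      nlinarith
  set T : ℝ := ((m + 2 : ℕ) : ℝ) + 2 with hT
  have hfar : ∀ x : ℝ, T ≤ x → 0 < g (m + 2) 0 x := fun x hx => h_pos_far (m + 2) hx
  have hT0 : 0 < T := by rw [hT]; positivity
  have hodd : g (m + 1) 0 0 = 0 := by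
    have h5 := g_neg (m + 1) 0 0
    have h6 : Odd (m + 1) := hm.add_one
    rw [neg_zero, h6.neg_one_pow] at h5
    linarith
  have crit : ∀ x : ℝ, 0 ≤ x → x < T → (∀ y, 0 ≤ y → y ≤ T → g (m + 2) 0 x ≤ g (m + 2) 0 y) →
      g (m + 1) 0 x = 0 := by
    intro x hx hxT hmin
    rcases eq_or_lt_of_le hx with h | h
    · rw [← h]; exact hodd
    · have hloc : IsLocalMin (g (m + 2) 0) x := by
        have h5 : ∀ᶠ y in 𝓝 x, 0 < y := lt_mem_nhds h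
        have h6 : ∀ᶠ y in 𝓝 x, y < T := gt_mem_nhds hxT
        filter_upwards [h5, h6] with y hy1 hy2
        exact hmin y hy1.le hy2.le
      have h7 := hloc.deriv_eq_zero
      rwa [(g_deriv (m + 2) 0 x).deriv, gd_zero] at h7
  obtain ⟨t0, ht0, hmin⟩ := isCompact_Icc.exists_isMinOn (⟨0, le_rfl, hT0.le⟩ : (Icc (0 : ℝ) T).Nonempty)
    (g_cont' (m + 2) 0).continuousOn
  have hmin' : ∀ y, 0 ≤ y → y ≤ T → g (m + 2) 0 t0 ≤ g (m + 2) 0 y := fun y hy1 hy2 => hmin ⟨hy1, hy2⟩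
  have hlt : ∀ x : ℝ, g (m + 2) 0 x < 0 → x < T := by
    intro x hx
    by_contra h
    have := hfar x (not_lt.1 h)
    linarith
  have hτT := hlt τ h4
  have h5 : g (m + 2) 0 t0 ≤ g (m + 2) 0 τ := hmin' τ hτ hτT.le
  have h6 : t0 = τ := claim t0 ht0.1 (crit t0 ht0.1 (hlt t0 (by linarith)) hmin') h5
  by_contra hcon
  have h7 : g (m + 2) 0 t ≤ g (m + 2) 0 τ := not_lt.1 hcon
  have h8 : t < T := hlt t (by linarith)
  refine hne (claim t ht (crit t ht h8 fun y hy1 hy2 => ?_) h7)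
  have := hmin' y hy1 hy2
  rw [h6] at this
  linarith

/-- the perturbed zero -/
theorem perturb_zero {m : ℕ} {τ δ : ℝ} (hδ : 0 < δ) (h1 : g (m + 1) 0 τ = 0)
    (h2 : ∀ t ∈ Icc (τ - 2 * δ) (τ + 2 * δ), 0 < g m 0 t) (h3 : ∀ t, τ < t → 0 < g (m + 1) 0 t) :
    ∀ᶠ ε in 𝓝 (0 : ℝ), 0 ≤ ε → ∃ z, g (m + 1) ε z = 0 ∧
      (∀ t, τ - 2 * δ ≤ t → t < z → g (m + 1) ε t < 0) ∧ (∀ t, z < t → 0 < g (m + 1) ε t) ∧
      |z - τ| ≤ 2 * δ := by
  -- derivative positive on the window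
  have e1 : ∀ᶠ ε in 𝓝 (0 : ℝ), ∀ t ∈ Icc (τ - 2 * δ) (τ + 2 * δ), 0 < gd (m + 1) ε t := by
    apply isCompact_Icc.eventually_forall_of_forall_eventually
    intro t ht
    apply (gd_cont (m + 1)).continuousAt.eventually
    apply lt_mem_nhds
    show 0 < gd (m + 1) 0 t
    rw [gd_zero]
    exact h2 t ht
  set T : ℝ := max (τ + 2 * δ) (((m + 1 : ℕ) : ℝ) + 2) with hT
  have e2 : ∀ᶠ ε in 𝓝 (0 : ℝ), ∀ t ∈ Icc (τ + 2 * δ) T, 0 < g (m + 1) ε t := by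
    apply isCompact_Icc.eventually_forall_of_forall_eventually
    intro t ht
    apply (g_cont (m + 1)).continuousAt.eventually
    exact lt_mem_nhds (h3 t (by linarith [ht.1]))
  have e3 : ∀ᶠ ε in 𝓝 (0 : ℝ), ((m + 1 : ℕ) : ℝ) * ε ≤ 1 := by
    have hc : Continuous fun ε : ℝ => ((m + 1 : ℕ) : ℝ) * ε := by fun_prop
    have h4 : ∀ᶠ ε in 𝓝 (0 : ℝ), ((m + 1 : ℕ) : ℝ) * ε < 1 :=
      hc.continuousAt.eventually_lt continuousAt_const (by simp)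
    exact h4.mono fun ε h => h.le
  have hneg : g (m + 1) 0 (τ - 2 * δ) < 0 := by
    have hmono : StrictMonoOn (g (m + 1) 0) (Icc (τ - 2 * δ) (τ + 2 * δ)) := by
      apply strictMonoOn_of_deriv_pos (convex_Icc _ _) (g_cont' _ _).continuousOn
      intro x hx
      rw [interior_Icc] at hx
      rw [(g_deriv (m + 1) 0 x).deriv, gd_zero]
      exact h2 x ⟨hx.1.le, hx.2.le⟩
    have := hmono ⟨le_rfl, by linarith⟩ (⟨by linarith, by linarith⟩ : τ ∈ Icc (τ - 2 * δ) (τ + 2 * δ))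
      (by linarith)
    rwa [h1] at this
  have e4 : ∀ᶠ ε in 𝓝 (0 : ℝ), g (m + 1) ε (τ - 2 * δ) < 0 := by
    have hc : Continuous fun ε : ℝ => g (m + 1) ε (τ - 2 * δ) :=
      (g_cont (m + 1)).comp (by fun_prop : Continuous fun ε : ℝ => (ε, τ - 2 * δ))
    exact hc.continuousAt.eventually (gt_mem_nhds hneg)
  filter_upwards [e1, e2, e3, e4] with ε h4 h5 h6 h7 h8
  have hmono : StrictMonoOn (g (m + 1) ε) (Icc (τ - 2 * δ) (τ + 2 * δ)) := by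
    apply strictMonoOn_of_deriv_pos (convex_Icc _ _) (g_cont' _ _).continuousOn
    intro x hx
    rw [interior_Icc] at hx
    rw [(g_deriv (m + 1) ε x).deriv]
    exact h4 x ⟨hx.1.le, hx.2.le⟩
  have hend : 0 < g (m + 1) ε (τ + 2 * δ) := h5 _ ⟨le_rfl, le_max_left _ _⟩
  obtain ⟨z, hz1, hz2⟩ := intermediate_value_Icc (by linarith : τ - 2 * δ ≤ τ + 2 * δ)
    (g_cont' (m + 1) ε).continuousOn (⟨h7.le, hend.le⟩ :
      (0 : ℝ) ∈ Icc (g (m + 1) ε (τ - 2 * δ)) (g (m + 1) ε (τ + 2 * δ)))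
  refine ⟨z, hz2, fun t ht1 ht2 => ?_, fun t ht => ?_, ?_⟩
  · have := hmono ⟨ht1, (ht2.trans_le hz1.2).le⟩ hz1 ht2
    rwa [hz2] at this
  · rcases le_total t (τ + 2 * δ) with h | h
    · have := hmono hz1 ⟨(hz1.1.trans_lt ht).le, h⟩ ht
      rwa [hz2] at this
    · rcases le_total t T with h9 | h9
      · exact h5 t ⟨h, h9⟩
      · exact (g_grow h8 h6 (le_trans (le_max_right _ _) h9) (m + 1) le_rfl).1
  · rw [abs_le]
    constructor <;> linarith [hz1.1, hz1.2]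

/-- the perturbed minimum -/
theorem perturb_min {m : ℕ} (hm : Even m) {τ δ : ℝ} (hτ : 0 ≤ τ) (hδ : 0 < δ)
    (h1 : g (m + 1) 0 τ = 0) (h2 : 0 < g m 0 τ) (h3 : ∀ t, τ < t → 0 < g (m + 1) 0 t)
    (h4 : g (m + 2) 0 τ < 0) :
    ∀ᶠ p : ℝ × ℝ in 𝓝 (0, τ), 0 ≤ p.1 → ∀ t, 0 ≤ t → δ ≤ |t - τ| →
      g (m + 2) p.1 p.2 < g (m + 2) p.1 t := by
  set T : ℝ := ((m + 2 : ℕ) : ℝ) + 2 with hT
  have hcomp : IsCompact (Icc (0 : ℝ) T ∩ {t | δ ≤ |t - τ|}) :=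
    isCompact_Icc.inter_right (isClosed_le continuous_const (by fun_prop))
  have e1 : ∀ᶠ p : ℝ × ℝ in 𝓝 (0, τ), ∀ t ∈ Icc (0 : ℝ) T ∩ {t | δ ≤ |t - τ|},
      g (m + 2) p.1 p.2 < g (m + 2) p.1 t := by
    apply hcomp.eventually_forall_of_forall_eventually
    intro t ht
    have hc1 : Continuous fun q : (ℝ × ℝ) × ℝ => g (m + 2) q.1.1 q.1.2 :=
      (g_cont (m + 2)).comp (by fun_prop : Continuous fun q : (ℝ × ℝ) × ℝ => (q.1.1, q.1.2))
    have hc2 : Continuous fun q : (ℝ × ℝ) × ℝ => g (m + 2) q.1.1 q.2 :=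
      (g_cont (m + 2)).comp (by fun_prop : Continuous fun q : (ℝ × ℝ) × ℝ => (q.1.1, q.2))
    have hne : t ≠ τ := by
      intro h
      have h5 : δ ≤ |t - τ| := ht.2
      rw [h, sub_self, abs_zero] at h5
      linarith
    exact hc1.continuousAt.eventually_lt hc2.continuousAt (uniq_min hm hτ h1 h2 h3 h4 ht.1.1 hne)
  have e2 : ∀ᶠ p : ℝ × ℝ in 𝓝 (0, τ), g (m + 2) p.1 p.2 < 0 :=
    (g_cont (m + 2)).continuousAt.eventually (gt_mem_nhds h4)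
  have e3 : ∀ᶠ p : ℝ × ℝ in 𝓝 (0, τ), ((m + 2 : ℕ) : ℝ) * p.1 ≤ 1 := by
    have hc : Continuous fun p : ℝ × ℝ => ((m + 2 : ℕ) : ℝ) * p.1 := by fun_prop
    have h5 : ∀ᶠ p : ℝ × ℝ in 𝓝 (0, τ), ((m + 2 : ℕ) : ℝ) * p.1 < 1 :=
      hc.continuousAt.eventually_lt continuousAt_const (by simp)
    exact h5.mono fun p h => h.le
  filter_upwards [e1, e2, e3] with p h5 h6 h7 h8 t ht0 ht
  rcases le_total t T with h9 | h9
  · exact h5 t ⟨⟨ht0, h9⟩, ht⟩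
  · exact lt_trans h6 (g_grow h8 h7 h9 (m + 2) le_rfl).1

end Pool.Agent.Q33.Kraw
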