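import Pool.Agent.Q33.Kraw.Min

/-! Binary Krawtchouk polynomials with a real argument. -/

namespace Pool.Agent.Q33.Kraw

open Finset

/-- `binom(x, j) = x (x-1) ⋯ (x-j+1) / j!` -/
noncomputable def ch (x : ℝ) (j : ℕ) : ℝ := (∏ i ∈ range j, (x - i)) / (j.factorial : ℝ)

/-- the binary Krawtchouk polynomial `K_m(x; N)` -/
noncomputable def kraw (m N : ℕ) (x : ℝ) : ℝ :=
  ∑ j ∈ range (m + 1), (-1) ^ j * ch x j * ch (N - x) (m - j)

theorem ch_zero (x : ℝ) : ch x 0 = 1 := by simp [ch]

theorem ch_rec (x : ℝ) (j : ℕ) : ((j : ℝ) + 1) * ch x (j + 1) = (x - j) * ch x j := by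
  unfold ch
  rw [prod_range_succ, Nat.factorial_succ]
  have h1 : ((j.factorial : ℕ) : ℝ) ≠ 0 := by positivity
  have h2 : (j : ℝ) + 1 ≠ 0 := by positivity
  push_cast
  field_simp

theorem ch_pascal (x : ℝ) (j : ℕ) : ch (x + 1) (j + 1) = ch x (j + 1) + ch x j := by
  induction j with
  | zero =>
    have h1 := ch_rec (x + 1) 0
    have h2 := ch_rec x 0
    simp only [ch_zero, Nat.cast_zero, zero_add, one_mul, sub_zero, mul_one] at h1 h2 ⊢
    rw [h1, h2]
  | succ j ih =>
    have h1 := ch_rec (x + 1) (j + 1)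
    have h2 := ch_rec x (j + 1)
    have h3 := ch_rec x j
    rw [ih] at h1
    have h4 : ((j : ℝ) + 1 + 1) ≠ 0 := by positivity
    apply mul_left_cancel₀ h4
    push_cast at h1 h2 h3 ⊢
    linear_combination h1 - h2 - h3

theorem ch_nat (a j : ℕ) : ch (a : ℝ) j = (a.choose j : ℝ) := by
  induction a generalizing j with
  | zero =>
    cases j with
    | zero => simp [ch_zero]
    | succ j =>
      rw [Nat.choose_zero_succ]
      simp [ch, prod_range_succ']
  | succ a ih =>
    cases j with
    | zero => simp [ch_zero]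
    | succ j =>
      rw [Nat.choose_succ_succ]
      push_cast
      rw [ch_pascal, ih, ih]
      ring

/-- `(1 - z)^x` -/
noncomputable def A (x : ℝ) : PowerSeries ℝ := PowerSeries.mk fun j => (-1) ^ j * ch x j

/-- `(1 + z)^x` -/
noncomputable def B (x : ℝ) : PowerSeries ℝ := PowerSeries.mk fun j => ch x j

theorem kraw_coeff (m N : ℕ) (x : ℝ) : kraw m N x = PowerSeries.coeff m (A x * B (N - x)) := by
  rw [PowerSeries.coeff_mul, Nat.sum_antidiagonal_eq_sum_range_succ_mk]
  unfold kraw A B
  simp only [PowerSeries.coeff_mk]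

theorem A_succ (x : ℝ) : A (x + 1) = (1 - PowerSeries.X) * A x := by
  ext j
  cases j with
  | zero =>
    rw [sub_mul, one_mul, map_sub, PowerSeries.coeff_zero_X_mul]
    simp [A, ch_zero]
  | succ j =>
    rw [sub_mul, one_mul, map_sub, PowerSeries.coeff_succ_X_mul]
    simp only [A, PowerSeries.coeff_mk]
    rw [ch_pascal, pow_succ]
    ring

theorem B_succ (x : ℝ) : B (x + 1) = (1 + PowerSeries.X) * B x := by
  ext j
  cases j with
  | zero =>
    rw [add_mul, one_mul, map_add, PowerSeries.coeff_zero_X_mul]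
    simp [B, ch_zero]
  | succ j =>
    rw [add_mul, one_mul, map_add, PowerSeries.coeff_succ_X_mul]
    simp only [B, PowerSeries.coeff_mk]
    rw [ch_pascal]

theorem kraw_diff (m N : ℕ) (x : ℝ) :
    kraw (m + 1) (N + 1) (x + 1) = kraw (m + 1) (N + 1) x - 2 * kraw m N x := by
  rw [kraw_coeff, kraw_coeff, kraw_coeff]
  have h1 : ((N + 1 : ℕ) : ℝ) - (x + 1) = N - x := by push_cast; ring
  have h2 : ((N + 1 : ℕ) : ℝ) - x = (N - x) + 1 := by push_cast; ring
  rw [h1, h2, A_succ, B_succ]
  have h3 : (1 - PowerSeries.X) * A x * B (N - x) =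
      A x * ((1 + PowerSeries.X) * B (N - x)) - PowerSeries.X * ((2 : ℝ) • (A x * B (N - x))) := by
    rw [show (2 : ℝ) • (A x * B (N - x)) = 2 * (A x * B (N - x)) by
      rw [two_smul, two_mul]]
    ring
  rw [h3, map_sub, PowerSeries.coeff_succ_X_mul, PowerSeries.coeff_smul, smul_eq_mul]

theorem A_ode (x : ℝ) :
    (1 - PowerSeries.X) * PowerSeries.derivative ℝ (A x) = PowerSeries.C (-x) * A x := by
  ext j
  rw [PowerSeries.coeff_C_mul]
  cases j with
  | zero =>
    rw [sub_mul, one_mul, map_sub, PowerSeries.coeff_zero_X_mul, PowerSeries.coeff_derivative]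
    have h1 := ch_rec x 0
    simp only [A, PowerSeries.coeff_mk, ch_zero] at *
    simp at h1 ⊢
    linarith
  | succ j =>
    rw [sub_mul, one_mul, map_sub, PowerSeries.coeff_succ_X_mul, PowerSeries.coeff_derivative,
      PowerSeries.coeff_derivative]
    have h1 := ch_rec x (j + 1)
    simp only [A, PowerSeries.coeff_mk]
    push_cast at h1 ⊢
    rw [pow_succ, pow_succ]
    linear_combination (-1) ^ j * h1

theorem B_ode (x : ℝ) :
    (1 + PowerSeries.X) * PowerSeries.derivative ℝ (B x) = PowerSeries.C x * B x := by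
  ext j
  rw [PowerSeries.coeff_C_mul]
  cases j with
  | zero =>
    rw [add_mul, one_mul, map_add, PowerSeries.coeff_zero_X_mul, PowerSeries.coeff_derivative]
    have h1 := ch_rec x 0
    simp only [B, PowerSeries.coeff_mk, ch_zero] at *
    simp at h1 ⊢
    linarith
  | succ j =>
    rw [add_mul, one_mul, map_add, PowerSeries.coeff_succ_X_mul, PowerSeries.coeff_derivative,
      PowerSeries.coeff_derivative]
    have h1 := ch_rec x (j + 1)
    simp only [B, PowerSeries.coeff_mk]
    push_cast at h1 ⊢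
    linear_combination h1

theorem kraw_rec (m N : ℕ) (x : ℝ) : ((m : ℝ) + 2) * kraw (m + 2) N x =
    (N - 2 * x) * kraw (m + 1) N x - (N - m) * kraw m N x := by
  rw [kraw_coeff, kraw_coeff, kraw_coeff]
  set P := A x * B (N - x) with hP
  have hode : (1 - PowerSeries.X * PowerSeries.X) * PowerSeries.derivative ℝ P =
      PowerSeries.C ((N : ℝ) - 2 * x) * P - PowerSeries.C (N : ℝ) * (PowerSeries.X * P) := by
    rw [hP, Derivation.leibniz, smul_eq_mul, smul_eq_mul]
    have h1 := A_ode x
    have h2 := B_ode (N - x)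
    have h3 : PowerSeries.C ((N : ℝ) - 2 * x) = PowerSeries.C ((N : ℝ) - x) + PowerSeries.C (-x) := by
      rw [← map_add]; congr 1; ring
    have h4 : (PowerSeries.C (N : ℝ) : PowerSeries ℝ) =
        PowerSeries.C ((N : ℝ) - x) - PowerSeries.C (-x) := by
      rw [← map_sub]; congr 1; ring
    rw [h3, h4]
    linear_combination (1 - PowerSeries.X) * A x * h2 + (1 + PowerSeries.X) * B (N - x) * h1
  have h5 := congrArg (PowerSeries.coeff (m + 1)) hode
  rw [sub_mul, one_mul, map_sub, map_sub, PowerSeries.coeff_C_mul, PowerSeries.coeff_C_mul,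
    PowerSeries.coeff_succ_X_mul, mul_assoc, PowerSeries.coeff_succ_X_mul,
    PowerSeries.coeff_derivative] at h5
  have h6 : PowerSeries.coeff m (PowerSeries.X * PowerSeries.derivative ℝ P) =
      m * PowerSeries.coeff m P := by
    cases m with
    | zero => rw [PowerSeries.coeff_zero_X_mul]; simp
    | succ m =>
      rw [PowerSeries.coeff_succ_X_mul, PowerSeries.coeff_derivative]
      push_cast; ring
  rw [h6] at h5
  push_cast at h5
  rw [show m + 1 + 1 = m + 2 by ring] at h5
  linear_combination h5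

theorem kraw_zero (N : ℕ) (x : ℝ) : kraw 0 N x = 1 := by
  simp [kraw, ch_zero]

theorem kraw_one (N : ℕ) (x : ℝ) : kraw 1 N x = N - 2 * x := by
  have h1 := ch_rec x 0
  have h2 := ch_rec (N - x) 0
  simp only [ch_zero, Nat.cast_zero, zero_add, one_mul, sub_zero, mul_one] at h1 h2
  simp only [kraw, sum_range_succ, sum_range_zero, ch_zero, h1, h2]
  norm_num
  rw [ch_zero]
  ring

theorem kraw_g (m N : ℕ) (hN : 1 ≤ N) (x : ℝ) :
    kraw m N x = Real.sqrt N ^ m * g m (1 / N) ((N - 2 * x) / Real.sqrt N) := by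
  have hN0 : (0 : ℝ) < N := by exact_mod_cast hN
  have hs : 0 < Real.sqrt N := Real.sqrt_pos.2 hN0
  have hs2 : Real.sqrt N * Real.sqrt N = N := Real.mul_self_sqrt hN0.le
  induction m using Nat.twoStepInduction with
  | zero => rw [kraw_zero]; simp [g]
  | one =>
    rw [kraw_one]
    simp only [g, pow_one]
    field_simp
  | more m h1 h2 =>
    have h3 := kraw_rec m N x
    have h4 : (0 : ℝ) < (m : ℝ) + 2 := by positivity
    apply mul_left_cancel₀ h4.ne'
    rw [h3, h1, h2, g_rec]
    have h5 : ((N : ℝ) - 2 * x) = Real.sqrt N * ((N - 2 * x) / Real.sqrt N) := by field_simp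
    set t := ((N : ℝ) - 2 * x) / Real.sqrt N with ht
    rw [h5]
    have h6 : ((N : ℝ) - m) = N * (1 - m * (1 / N)) := by field_simp
    have hp1 : Real.sqrt N ^ (m + 1) = Real.sqrt N ^ m * Real.sqrt N := by ring
    have hp2 : Real.sqrt N ^ (m + 2) = Real.sqrt N ^ m * Real.sqrt N * Real.sqrt N := by ring
    rw [h6, hp1, hp2]
    have h7 : Real.sqrt N ^ m * Real.sqrt N * Real.sqrt N = Real.sqrt N ^ m * N := by
      rw [mul_assoc, hs2]
    have h8 : ((m : ℝ) + 2) * (Real.sqrt N ^ m * Real.sqrt N * Real.sqrt N *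
        ((t * g (m + 1) (1 / N) t - (1 - m * (1 / N)) * g m (1 / N) t) / (m + 2))) =
        Real.sqrt N ^ m * Real.sqrt N * Real.sqrt N *
        (t * g (m + 1) (1 / N) t - (1 - m * (1 / N)) * g m (1 / N) t) := by
      field_simp
    rw [h8]
    linear_combination (-((1 - m * (1 / N)) * g m (1 / N) t)) * (-h7)

end Pool.Agent.Q33.Kraw
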